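import Pool.Agent.Run7.h349.Ord

/-!
# Circular-arc graphs are chromatic-choosable

In particular the list chromatic number of every claw-free circular-arc graph equals its chromatic
number.
-/

set_option autoImplicit false

namespace Pool.Agent.Results.MP_fb43a4_co.CircularArcGraphs

/-- The closed arc of the circle `ℝ / ℤ` that starts at `x` and has length `l`. -/
def arc (x l : ℝ) : Set (AddCircle (1 : ℝ)) :=
  (fun t : ℝ => (t : AddCircle (1 : ℝ))) '' Set.Icc x (x + l)

/-- Circular-arc graphs: the intersection graphs of families of arcs of a circle. Here the circle is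
`ℝ / ℤ`, and the vertex `v` is represented by the arc with starting point `x v` and length `l v`. -/
def IsCircularArc {V : Type} (G : SimpleGraph V) : Prop :=
  ∃ x l : V → ℝ, (∀ v, 0 ≤ l v) ∧
    ∀ u v, G.Adj u v ↔ u ≠ v ∧ (arc (x u) (l u) ∩ arc (x v) (l v)).Nonempty

theorem coe_eq_iff (s t : ℝ) :
    (s : AddCircle (1 : ℝ)) = (t : AddCircle (1 : ℝ)) ↔ ∃ m : ℤ, s = t + m := by
  rw [← sub_eq_zero, ← AddCircle.coe_sub, AddCircle.coe_eq_zero_iff]
  constructor
  · rintro ⟨m, hm⟩
    refine ⟨m, ?_⟩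
    rw [zsmul_eq_mul, mul_one] at hm
    linarith
  · rintro ⟨m, hm⟩
    refine ⟨m, ?_⟩
    rw [zsmul_eq_mul, mul_one]
    linarith

theorem inter_iff {x l y m : ℝ} (hl : 0 ≤ l) (hm : 0 ≤ m) :
    (arc x l ∩ arc y m).Nonempty ↔ ∃ z : ℤ, x ≤ y + m + z ∧ y + z ≤ x + l := by
  constructor
  · rintro ⟨_, ⟨s, hs, rfl⟩, ⟨t, ht, hst⟩⟩
    simp only at hst
    rw [coe_eq_iff] at hst
    obtain ⟨z, hz⟩ := hst
    refine ⟨-z, ?_, ?_⟩
    · push_cast
      linarith [hs.1, ht.2]
    · push_cast
      linarith [hs.2, ht.1]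
  · rintro ⟨z, h1, h2⟩
    rcases le_total x (y + z) with h | h
    · refine ⟨((y + z : ℝ) : AddCircle (1 : ℝ)), ⟨y + z, ⟨h, h2⟩, rfl⟩, ⟨y, ⟨le_rfl, by linarith⟩, ?_⟩⟩
      simp only
      rw [coe_eq_iff]
      exact ⟨-z, by push_cast; ring⟩
    · refine ⟨(x : AddCircle (1 : ℝ)), ⟨x, ⟨le_rfl, by linarith⟩, rfl⟩,
        ⟨x - z, ⟨by linarith, by linarith⟩, ?_⟩⟩
      simp only
      rw [coe_eq_iff]
      exact ⟨-z, by push_cast; ring⟩

open Run7.h349 in
/-- The main argument, for a colouring that uses all colours and normalised arcs. -/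
theorem main {V : Type} [Fintype V] (G : SimpleGraph V) {k : ℕ} (hk : 0 < k)
    (s l : V → ℝ) (hl : ∀ v, 0 ≤ l v)
    (hs1 : ∀ v, s v < 1)
    (hs2 : ∀ v, s v < 0 → 0 ≤ s v + l v)
    (hs3 : ∀ v, 0 ≤ s v → s v + l v < 1)
    (hadj : ∀ u v, G.Adj u v ↔ u ≠ v ∧ ∃ z : ℤ, s u ≤ s v + l v + z ∧ s v + z ≤ s u + l u)
    (c : V → Fin k) (hsur : Function.Surjective c) (hc : ∀ u v, G.Adj u v → c u ≠ c v)
    (L : V → Finset ℕ) (hL : ∀ v, k ≤ (L v).card) :
    ∃ col : V → ℕ, (∀ v, col v ∈ L v) ∧ ∀ u v, G.Adj u v → col u ≠ col v := by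
  classical
  have hinj : Function.Injective (fun v => toLex (s v, Fintype.equivFin V v)) := by
    intro u v h
    have h1 := congrArg (fun p => (ofLex p).2) h
    simp only [ofLex_toLex] at h1
    exact (Fintype.equivFin V).injective h1
  let : LinearOrder V := LinearOrder.lift' _ hinj
  have hle : ∀ u v : V, u < v → s u ≤ s v := by
    intro u v h
    have h1 : toLex (s u, Fintype.equivFin V u) < toLex (s v, Fintype.equivFin V v) := h
    rw [Prod.Lex.toLex_lt_toLex] at h1
    rcases h1 with h1 | h1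
    · exact h1.le
    · exact h1.1.le
  -- vertices of the same colour have disjoint arcs
  have hdis : ∀ u v, c u = c v → (∃ z : ℤ, s u ≤ s v + l v + z ∧ s v + z ≤ s u + l u) →
      u = v := by
    intro u v h1 h2
    by_contra hne
    exact hc u v ((hadj u v).2 ⟨hne, h2⟩) h1
  -- the two kinds of edges
  have hkind : ∀ u v, u < v → G.Adj u v →
      s v ≤ s u + l u ∨ (s u < 0 ∧ 0 ≤ s v ∧ s u + 1 ≤ s v + l v) := by
    intro u v huv h
    obtain ⟨_, z, h1, h2⟩ := (hadj u v).1 h
    have h3 := hle u v huv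
    rcases le_or_gt 0 z with hz | hz
    · left
      have : (0 : ℝ) ≤ z := by exact_mod_cast hz
      linarith
    · have hz1 : (z : ℝ) ≤ -1 := by
        have : z ≤ -1 := by omega
        exact_mod_cast this
      rcases lt_or_ge (s v) 0 with h4 | h4
      · left
        have := hs2 u (by linarith)
        linarith
      · right
        have := hs3 v h4
        exact ⟨by linarith, h4, by linarith⟩
  -- the surplus edges
  have hsur2 : ∀ u v, u < v → G.Adj u v → Ex G c u v →
      s u < 0 ∧ 0 ≤ s v ∧ s v < s u + 1 ∧ s u + 1 ≤ s v + l v := by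
    rintro u v huv h ⟨w, hw1, hw2, hw3, hw4⟩
    have e1 := hle u w hw1
    have e2 := hle w v hw2
    rcases hkind u v huv h with h1 | ⟨h1, h2, h3⟩
    · exfalso
      have := hdis u w hw3.symm ⟨0, by push_cast; linarith [hl w], by push_cast; linarith⟩
      exact hw1.ne this
    · refine ⟨h1, h2, ?_, h3⟩
      rcases hkind w v hw2 hw4 with h4 | ⟨h4, _, _⟩
      · by_contra h5
        push Not at h5
        have h6 := hs2 u h1
        have h7 := hs1 w
        have := hdis u w hw3.symm ⟨-1, by push_cast; linarith, by push_cast; linarith⟩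
        exact hw1.ne this
      · exfalso
        have h6 := hs2 u h1
        have h7 := hs2 w h4
        have := hdis u w hw3.symm ⟨0, by push_cast; linarith, by push_cast; linarith⟩
        exact hw1.ne this
  have hcross : ∀ u u' v', c u = c v' → s u ≤ s u' → s u < 0 → s u' < 0 → 0 ≤ s v' →
      s v' < s u' + 1 → s u' + 1 ≤ s v' + l v' → False := by
    intro u u' v' h1 h2 h3 h4 h5 h6 h7
    have h8 := hs2 u h3
    have := hdis u v' h1 ⟨-1, by push_cast; linarith, by push_cast; linarith⟩
    rw [this] at h3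
    linarith
  apply order_choosable hk hsur hc ?_ L hL
  intro i j hij u v u' v' huv hG1 hcol1 _ hE1 huv' hG2 hcol2 _ hE2
  obtain ⟨a1, a2, a3, a4⟩ := hsur2 u v huv hG1 hE1
  obtain ⟨b1, b2, b3, b4⟩ := hsur2 u' v' huv' hG2 hE2
  have hu0 := hs2 u a1
  have hu0' := hs2 u' b1
  have hsame : c u = c u' → c v = c v' → u = u' ∧ v = v' := by
    intro h1 h2
    have h3 : u = u' := hdis u u' h1 ⟨0, by push_cast; linarith, by push_cast; linarith⟩
    subst h3
    exact ⟨rfl, hdis v v' h2 ⟨0, by push_cast; linarith, by push_cast; linarith⟩⟩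
  have hdiff : c u = c v' → c u' = c v → u = u' ∧ v = v' := by
    intro h1 h2
    exfalso
    rcases le_total (s u) (s u') with h | h
    · exact hcross u u' v' h1 h a1 b1 b2 b3 b4
    · exact hcross u' u v h2 h b1 a1 a2 a3 a4
  rcases hcol1 with ⟨h1, h2⟩ | ⟨h1, h2⟩ <;> rcases hcol2 with ⟨h3, h4⟩ | ⟨h3, h4⟩
  · exact hsame (h1.trans h3.symm) (h2.trans h4.symm)
  · exact hdiff (h1.trans h4.symm) (h3.trans h2.symm)
  · exact hdiff (h1.trans h4.symm) (h3.trans h2.symm)
  · exact hsame (h1.trans h3.symm) (h2.trans h4.symm)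

theorem result : ∀ (V : Type) [Fintype V] (G : SimpleGraph V), IsCircularArc G →
    ∀ k : ℕ, G.Colorable k → ∀ L : V → Finset ℕ, (∀ v, k ≤ (L v).card) →
      ∃ col : V → ℕ, (∀ v, col v ∈ L v) ∧ ∀ u v, G.Adj u v → col u ≠ col v := by
  intro V _ G hG k hcol L hL
  classical
  rcases isEmpty_or_nonempty V with hV | hV
  · exact ⟨fun v => isEmptyElim v, fun v => isEmptyElim v, fun v => isEmptyElim v⟩
  obtain ⟨x, l, hl, hadj⟩ := hG
  obtain ⟨C⟩ := hcol
  -- use only the colours that occur
  set R : Finset (Fin k) := Finset.univ.image C with hR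
  have hRk : R.card ≤ k := by
    have := Finset.card_le_univ R
    rwa [Fintype.card_fin] at this
  have hRpos : 0 < R.card := Finset.card_pos.2 ⟨C hV.some, Finset.mem_image_of_mem _ (Finset.mem_univ _)⟩
  set e : R ≃ Fin R.card := R.equivFin with he
  set c : V → Fin R.card := fun v => e ⟨C v, Finset.mem_image_of_mem _ (Finset.mem_univ _)⟩ with hc
  have hsur : Function.Surjective c := by
    intro a
    obtain ⟨v, _, hv⟩ := Finset.mem_image.1 (e.symm a).2
    refine ⟨v, ?_⟩
    rw [hc]
    simp only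
    rw [← Equiv.eq_symm_apply]
    exact Subtype.ext hv
  have hprop : ∀ u v, G.Adj u v → c u ≠ c v := by
    intro u v huv h
    have h1 := e.injective h
    rw [Subtype.mk.injEq] at h1
    exact C.valid huv h1
  set s : V → ℝ := fun v => if 1 ≤ Int.fract (x v) + l v then Int.fract (x v) - 1
    else Int.fract (x v) with hs
  have hsz : ∀ v, ∃ m : ℤ, s v = x v + m := by
    intro v
    simp only [hs]
    have h1 := Int.floor_add_fract (x v)
    split_ifs
    · exact ⟨-⌊x v⌋ - 1, by push_cast; linarith⟩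
    · exact ⟨-⌊x v⌋, by push_cast; linarith⟩
  have h01 : ∀ v, 0 ≤ Int.fract (x v) ∧ Int.fract (x v) < 1 :=
    fun v => ⟨Int.fract_nonneg _, Int.fract_lt_one _⟩
  apply main G hRpos s l hl ?_ ?_ ?_ ?_ c hsur hprop L (fun v => hRk.trans (hL v))
  · intro v
    simp only [hs]
    have := h01 v
    split_ifs <;> linarith
  · intro v
    simp only [hs]
    have := h01 v
    split_ifs with h
    · intro _; linarith
    · intro h2; linarith
  · intro v
    simp only [hs]
    have := h01 v
    split_ifs with h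
    · intro h2; linarith
    · intro _; linarith
  · intro u v
    rw [hadj, inter_iff (hl u) (hl v)]
    obtain ⟨m, hm⟩ := hsz u
    obtain ⟨m', hm'⟩ := hsz v
    apply and_congr_right
    intro _
    constructor
    · rintro ⟨z, h1, h2⟩
      exact ⟨z + m - m', by push_cast; linarith, by push_cast; linarith⟩
    · rintro ⟨z, h1, h2⟩
      exact ⟨z - m + m', by push_cast; linarith, by push_cast; linarith⟩

end Pool.Agent.Results.MP_fb43a4_co.CircularArcGraphs
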