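import Pool.Agent.Run7.h349.Fz7

/-!
# Fuzzy circular interval graphs are chromatic-choosable
-/

set_option autoImplicit false
set_option linter.unusedSectionVars false

namespace Pool.Agent.Results.MP_fb43a4_co.FuzzyCircularInterval

/-- The closed interval of the circle `ℝ / ℤ` that starts at the point `I.1` and has length
`I.2`. -/
def itv (I : AddCircle (1 : ℝ) × ℝ) : Set (AddCircle (1 : ℝ)) :=
  (fun t : ℝ => I.1 + (t : AddCircle (1 : ℝ))) '' Set.Icc 0 I.2

/-- The set of the two ends of the interval. -/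
def ends (I : AddCircle (1 : ℝ) × ℝ) : Set (AddCircle (1 : ℝ)) :=
  {I.1, I.1 + (I.2 : AddCircle (1 : ℝ))}

/-- Fuzzy circular interval graphs. The vertices are mapped to points of the circle `ℝ / ℤ`, and `F`
is a set of closed intervals of the circle, none including another, such that no two of them have a
common end. Adjacent vertices are mapped into a common interval of `F`, and if two distinct vertices
are mapped into a common interval `I` of `F` then they are adjacent or are mapped to the two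
distinct ends of `I`. -/
def IsFuzzyCircularInterval {V : Type} (G : SimpleGraph V) : Prop :=
  ∃ (p : V → AddCircle (1 : ℝ)) (F : Set (AddCircle (1 : ℝ) × ℝ)),
    (∀ I ∈ F, 0 < I.2 ∧ I.2 < 1) ∧
    (∀ I ∈ F, ∀ J ∈ F, itv I ⊆ itv J → I = J) ∧
    (∀ I ∈ F, ∀ J ∈ F, I ≠ J → Disjoint (ends I) (ends J)) ∧
    (∀ u v, G.Adj u v → ∃ I ∈ F, p u ∈ itv I ∧ p v ∈ itv I) ∧
    (∀ u v, u ≠ v → ∀ I ∈ F, p u ∈ itv I → p v ∈ itv I →
      G.Adj u v ∨ ({p u, p v} : Set (AddCircle (1 : ℝ))) = ends I)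

theorem coe_eq_iff (s t : ℝ) :
    (s : AddCircle (1 : ℝ)) = (t : AddCircle (1 : ℝ)) ↔ ∃ m : ℤ, s = t + m := by
  rw [← sub_eq_zero, ← AddCircle.coe_sub, AddCircle.coe_eq_zero_iff]
  constructor
  · rintro ⟨m, hm⟩
    refine ⟨m, ?_⟩
    rw [zsmul_eq_mul, mul_one] at hm
    linarith
  · rintro ⟨m, hm⟩
    refine ⟨m, ?_⟩
    rw [zsmul_eq_mul, mul_one]
    linarith

theorem exists_co (x : AddCircle (1 : ℝ)) :
    ∃ r : ℝ, (0 ≤ r ∧ r < 1) ∧ (r : AddCircle (1 : ℝ)) = x := by
  obtain ⟨y, rfl⟩ := QuotientAddGroup.mk_surjective x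
  refine ⟨Int.fract y, ⟨Int.fract_nonneg _, Int.fract_lt_one _⟩, ?_⟩
  rw [coe_eq_iff]
  refine ⟨-⌊y⌋, ?_⟩
  have h1 := Int.floor_add_fract y
  push_cast
  linarith

/-- The coordinate of a point of the circle. -/
noncomputable def co (x : AddCircle (1 : ℝ)) : ℝ := (exists_co x).choose

theorem co_mem (x : AddCircle (1 : ℝ)) : 0 ≤ co x ∧ co x < 1 := (exists_co x).choose_spec.1

theorem coe_co (x : AddCircle (1 : ℝ)) : (co x : AddCircle (1 : ℝ)) = x :=
  (exists_co x).choose_spec.2

theorem eq_of_int {s t : ℝ} {m : ℤ} (h : s = t + m) (h1 : -1 < s - t) (h2 : s - t < 1) :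
    s = t := by
  have h3 : (-1 : ℝ) < m := by linarith
  have h4 : (m : ℝ) < 1 := by linarith
  have h5 : -1 < m := by exact_mod_cast h3
  have h6 : m < 1 := by exact_mod_cast h4
  have h7 : m = 0 := by omega
  rw [h, h7]
  push_cast
  ring

theorem co_eq {x : AddCircle (1 : ℝ)} {r : ℝ} (h0 : 0 ≤ r) (h1 : r < 1)
    (h : (r : AddCircle (1 : ℝ)) = x) : co x = r := by
  have h2 : (co x : AddCircle (1 : ℝ)) = (r : AddCircle (1 : ℝ)) := by rw [coe_co, h]
  obtain ⟨m, hm⟩ := (coe_eq_iff _ _).1 h2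
  have h3 := co_mem x
  exact eq_of_int hm (by linarith) (by linarith)

/-- The point at distance `t` after the point with coordinate `X`. -/
theorem shift_iff {x y s : AddCircle (1 : ℝ)} {t : ℝ} (ht0 : 0 ≤ t) (ht1 : t < 1) :
    x = y + (t : AddCircle (1 : ℝ)) ↔
      (co (x - s) = co (y - s) + t ∨ co (x - s) + 1 = co (y - s) + t) := by
  have hx := co_mem (x - s)
  have hy := co_mem (y - s)
  have h1 : x = y + (t : AddCircle (1 : ℝ)) ↔
      (co (x - s) : AddCircle (1 : ℝ)) = ((co (y - s) + t : ℝ) : AddCircle (1 : ℝ)) := by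
    rw [AddCircle.coe_add, coe_co, coe_co]
    constructor
    · intro h
      rw [h]
      abel
    · intro h
      have h2 := congrArg (fun z => z + s) h
      simp only [sub_add_cancel] at h2
      rw [h2]
      abel
  rw [h1, coe_eq_iff]
  constructor
  · rintro ⟨m, hm⟩
    rcases lt_trichotomy m (-1) with h | h | h
    · exfalso
      have h2 : m ≤ -2 := by omega
      have h3 : (m : ℝ) ≤ -2 := by exact_mod_cast h2
      linarith
    · right
      rw [hm, h]
      push_cast
      ring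
    · rcases lt_trichotomy m 0 with h' | h' | h'
      · omega
      · left
        rw [hm, h']
        push_cast
        ring
      · exfalso
        have h2 : 1 ≤ m := by omega
        have h3 : (1 : ℝ) ≤ m := by exact_mod_cast h2
        linarith
  · rintro (h | h)
    · exact ⟨0, by rw [h]; push_cast; ring⟩
    · exact ⟨-1, by push_cast; linarith⟩

theorem mem_itv {I : AddCircle (1 : ℝ) × ℝ} (h1 : I.2 < 1) {x s : AddCircle (1 : ℝ)} :
    x ∈ itv I ↔ ((co (I.1 - s) ≤ co (x - s) ∧ co (x - s) ≤ co (I.1 - s) + I.2) ∨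
      co (x - s) + 1 ≤ co (I.1 - s) + I.2) := by
  have hx := co_mem (x - s)
  have hy := co_mem (I.1 - s)
  constructor
  · rintro ⟨t, ht, rfl⟩
    simp only at hx ⊢
    rcases (shift_iff (s := s) ht.1 (lt_of_le_of_lt ht.2 h1)).1
      (rfl : I.1 + (t : AddCircle (1 : ℝ)) = _) with h | h
    · left
      rw [h]
      exact ⟨by linarith [ht.1], by linarith [ht.2]⟩
    · right
      rw [h]
      linarith [ht.2]
  · rintro (⟨h2, h3⟩ | h2)
    · refine ⟨co (x - s) - co (I.1 - s), ⟨by linarith, by linarith⟩, ?_⟩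
      simp only
      symm
      rw [shift_iff (s := s) (by linarith) (by linarith)]
      left
      ring
    · refine ⟨co (x - s) + 1 - co (I.1 - s), ⟨by linarith, by linarith⟩, ?_⟩
      simp only
      symm
      rw [shift_iff (s := s) (by linarith) (by linarith)]
      right
      ring

theorem co_inj {x y s : AddCircle (1 : ℝ)} : x = y ↔ co (x - s) = co (y - s) := by
  constructor
  · intro h
    rw [h]
  · intro h
    have h2 : x - s = y - s := by rw [← coe_co (x - s), h, coe_co]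
    exact sub_left_injective h2

open Run7.h349

variable {V : Type} (p : V → AddCircle (1 : ℝ)) (F : Set (AddCircle (1 : ℝ) × ℝ))
  (h1 : ∀ I ∈ F, 0 < I.2 ∧ I.2 < 1)
  (h2 : ∀ I ∈ F, ∀ J ∈ F, itv I ⊆ itv J → I = J)
  (h3 : ∀ I ∈ F, ∀ J ∈ F, I ≠ J → Disjoint (ends I) (ends J))

/-- The points and the intervals in coordinates, where `s` is the base point. -/
noncomputable def mdl (s : AddCircle (1 : ℝ)) : Mdl V F where
  θ v := co (p v - s)
  X i := co (i.1.1 - s)
  l i := i.1.2
  hθ v := co_mem _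
  hX i := co_mem _
  hl i := h1 i.1 i.2
  e1 := by
    intro i j h
    rw [← co_inj] at h
    by_contra hne
    have h4 := Set.disjoint_left.1 (h3 i.1 i.2 j.1 j.2 (fun h => hne (Subtype.ext h)))
    exact h4 (Or.inl rfl) (Or.inl h)
  e2 := by
    intro i j
    have key : ¬ (co (i.1.1 - s) = co (j.1.1 - s) + j.1.2 ∨
        co (i.1.1 - s) + 1 = co (j.1.1 - s) + j.1.2) := by
      intro h
      by_cases hne : i = j
      · subst hne
        have := h1 i.1 i.2
        rcases h with h | h <;> linarith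
      · have h4 := Set.disjoint_left.1 (h3 i.1 i.2 j.1 j.2 (fun h => hne (Subtype.ext h)))
        have h5 := h1 j.1 j.2
        exact h4 (Or.inl rfl) (Or.inr ((shift_iff (s := s) h5.1.le h5.2).2 h))
    exact ⟨fun h => key (Or.inl h), fun h => key (Or.inr h)⟩
  e3 := by
    intro i j h
    by_contra hne
    have h4 := Set.disjoint_left.1 (h3 i.1 i.2 j.1 j.2 (fun h => hne (Subtype.ext h)))
    apply h4 (Or.inr rfl)
    right
    have h5 := h1 j.1 j.2
    have h6 := h1 i.1 i.2
    have e : ∀ m : ℤ, co (i.1.1 - s) + i.1.2 = co (j.1.1 - s) + j.1.2 + m →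
        i.1.1 + (i.1.2 : AddCircle (1 : ℝ)) = j.1.1 + (j.1.2 : AddCircle (1 : ℝ)) := by
      intro m hm
      have h7 := (coe_eq_iff _ _).2 ⟨m, hm⟩
      rw [AddCircle.coe_add, AddCircle.coe_add, coe_co, coe_co] at h7
      have h8 := congrArg (fun z => z + s) h7
      calc i.1.1 + (i.1.2 : AddCircle (1 : ℝ)) = i.1.1 - s + (i.1.2 : AddCircle (1 : ℝ)) + s := by
            abel
        _ = _ := by
            rw [h8]
            abel
    rcases h with h | h
    · exact e 0 (by push_cast; linarith)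
    · exact e 1 (by push_cast; linarith)
  nn := by
    intro i j hij
    have hi := h1 i.1 i.2
    have hj := h1 j.1 j.2
    have xi := co_mem (i.1.1 - s)
    have xj := co_mem (j.1.1 - s)
    constructor
    · rintro ⟨h4, h5⟩
      apply hij
      apply Subtype.ext
      apply h2 i.1 i.2 j.1 j.2
      intro x hx
      rw [mem_itv (s := s) hi.2] at hx
      rw [mem_itv (s := s) hj.2]
      have hx1 := co_mem (x - s)
      rcases hx with ⟨h6, h7⟩ | h6
      · left
        exact ⟨by linarith, by linarith⟩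
      · right
        linarith
    · intro h4
      apply hij
      apply Subtype.ext
      apply h2 i.1 i.2 j.1 j.2
      intro x hx
      rw [mem_itv (s := s) hi.2] at hx
      rw [mem_itv (s := s) hj.2]
      have hx1 := co_mem (x - s)
      rcases hx with ⟨h6, h7⟩ | h6
      · right
        linarith
      · exfalso
        linarith

theorem mdl_mem (s : AddCircle (1 : ℝ)) (i : F) (v : V) :
    (mdl p F h1 h2 h3 s).mem i v ↔ p v ∈ itv i.1 :=
  (mem_itv (s := s) (h1 i.1 i.2).2).symm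

theorem mdl_start (s : AddCircle (1 : ℝ)) (i : F) (v : V) :
    (mdl p F h1 h2 h3 s).θ v = (mdl p F h1 h2 h3 s).X i ↔ p v = i.1.1 :=
  (co_inj (s := s)).symm

theorem mdl_en (s : AddCircle (1 : ℝ)) (i : F) (v : V) :
    (mdl p F h1 h2 h3 s).en i v ↔ p v = i.1.1 + (i.1.2 : AddCircle (1 : ℝ)) :=
  (shift_iff (s := s) (h1 i.1 i.2).1.le (h1 i.1 i.2).2).symm

theorem mdl_Sd (s : AddCircle (1 : ℝ)) (u v : V) :
    (mdl p F h1 h2 h3 s).Sd u v ↔ u ≠ v ∧ ∃ I ∈ F, p u ∈ itv I ∧ p v ∈ itv I := by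
  unfold Mdl.Sd
  apply and_congr_right
  intro _
  constructor
  · rintro ⟨i, h4, h5⟩
    rw [mdl_mem] at h4 h5
    exact ⟨i.1, i.2, h4, h5⟩
  · rintro ⟨I, hI, h4, h5⟩
    refine ⟨⟨I, hI⟩, ?_, ?_⟩
    · rw [mdl_mem]
      exact h4
    · rw [mdl_mem]
      exact h5

theorem mdl_good {G : SimpleGraph V} {k : ℕ} {c : V → Fin k}
    (h5 : ∀ u v, u ≠ v → ∀ I ∈ F, p u ∈ itv I → p v ∈ itv I →
      G.Adj u v ∨ ({p u, p v} : Set (AddCircle (1 : ℝ))) = ends I)
    (hc : ∀ u v, G.Adj u v → c u ≠ c v) (s : AddCircle (1 : ℝ)) :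
    (mdl p F h1 h2 h3 s).Good c := by
  intro i u v huv hu hv hcc
  rw [mdl_mem] at hu hv
  rw [mdl_start, mdl_en, mdl_start, mdl_en]
  rcases h5 u v huv i.1 i.2 hu hv with h | h
  · exact absurd hcc (hc u v h)
  · unfold ends at h
    rw [Set.pair_eq_pair_iff] at h
    rcases h with h | h
    · exact Or.inl h
    · exact Or.inr ⟨h.2, h.1⟩

include h1 h2 h3 in
open Classical in
theorem mdl_tight [Fintype V] {G : SimpleGraph V} {k : ℕ} {c : V → Fin k}
    (h5 : ∀ u v, u ≠ v → ∀ I ∈ F, p u ∈ itv I → p v ∈ itv I →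
      G.Adj u v ∨ ({p u, p v} : Set (AddCircle (1 : ℝ))) = ends I)
    (hc : ∀ u v, G.Adj u v → c u ≠ c v)
    {I : AddCircle (1 : ℝ) × ℝ} (hI : I ∈ F) {a b : V} (ha : p a = I.1)
    (hb : p b = I.1 + (I.2 : AddCircle (1 : ℝ))) (hab : c a = c b) {γ : Fin k}
    (hγ : ∀ v, c v = γ → p v ∉ itv I)
    (hR : ∀ c1 : V → Fin k, (∀ u v, u ≠ v → (∃ J ∈ F, p u ∈ itv J ∧ p v ∈ itv J) → c u ≠ c v →
      c1 u ≠ c1 v) → c1 a = c1 b) :
    (Finset.univ.filter fun v => c v = γ).card < (Finset.univ.filter fun v => c v = c a).card := by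
  have hI1 := h1 I hI
  set s : AddCircle (1 : ℝ) := I.1 + (I.2 : AddCircle (1 : ℝ)) with hs
  obtain ⟨ord, ho⟩ := Mdl.exists_order (mdl p F h1 h2 h3 s) c
  have hX : co (I.1 - s) = 1 - I.2 := by
    apply co_eq (by linarith) (by linarith)
    rw [AddCircle.coe_sub, hs]
    have : ((1 : ℝ) : AddCircle (1 : ℝ)) = 0 := AddCircle.coe_period 1
    rw [this]
    abel
  have hθb : co (p b - s) = 0 := by
    apply co_eq le_rfl one_pos
    rw [hb, sub_self]
    rfl
  refine Mdl.tight (M := mdl p F h1 h2 h3 s) (f := ⟨I, hI⟩) (a := a) (b := b) ho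
    (mdl_good p F h1 h2 h3 h5 hc s) ?_ ?_ ?_ rfl hab.symm ?_ ?_
  · show co (I.1 - s) + I.2 = 1
    rw [hX]
    ring
  · rw [mdl_start]
    exact ha
  · exact hθb
  · intro v hv
    rw [mdl_mem]
    exact hγ v hv
  · intro c1 hc1
    apply hR c1
    intro u v huv hJ hne
    exact hc1 u v ((mdl_Sd p F h1 h2 h3 s u v).2 ⟨huv, hJ⟩) hne

theorem result : ∀ (V : Type) [Fintype V] (G : SimpleGraph V), IsFuzzyCircularInterval G →
    ∀ k : ℕ, G.Colorable k → ∀ L : V → Finset ℕ, (∀ v, k ≤ (L v).card) →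
      ∃ col : V → ℕ, (∀ v, col v ∈ L v) ∧ ∀ u v, G.Adj u v → col u ≠ col v := by
  classical
  intro V _ G hG k hcol L hL
  rcases isEmpty_or_nonempty V with hV | hV
  · exact ⟨fun v => isEmptyElim v, fun v => isEmptyElim v, fun v => isEmptyElim v⟩
  obtain ⟨p, F, h1, h2, h3, h4, h5⟩ := hG
  -- the chromatic number
  have hex : ∃ m, G.Colorable m := ⟨k, hcol⟩
  set m := Nat.find hex with hm
  have hmc : G.Colorable m := Nat.find_spec hex
  have hmk : m ≤ k := Nat.find_min' hex hcol
  -- the colouring with the fewest conflicts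
  set P : Finset (V → Fin m) := Finset.univ.filter fun c => ∀ u v, G.Adj u v → c u ≠ c v with hP
  have hPne : P.Nonempty := by
    obtain ⟨C⟩ := hmc
    exact ⟨C, Finset.mem_filter.2 ⟨Finset.mem_univ _, fun u v h => C.valid h⟩⟩
  set S : V → V → Prop := fun u v => u ≠ v ∧ ∃ I ∈ F, p u ∈ itv I ∧ p v ∈ itv I with hS
  set E : (V → Fin m) → Finset (V × V) := fun c => Finset.univ.filter fun q =>
    S q.1 q.2 ∧ c q.1 = c q.2 with hE
  obtain ⟨c, hcP, hcmin⟩ := Finset.exists_min_image P (fun c => (E c).card) hPne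
  have hc : ∀ u v, G.Adj u v → c u ≠ c v := (Finset.mem_filter.1 hcP).2
  have hR : ∀ c1 : V → Fin m, (∀ u v, u ≠ v → (∃ J ∈ F, p u ∈ itv J ∧ p v ∈ itv J) →
      c u ≠ c v → c1 u ≠ c1 v) → ∀ a b, S a b → c a = c b → c1 a = c1 b := by
    intro c1 hc1 a b hab hcab
    have hc1P : c1 ∈ P := by
      rw [hP, Finset.mem_filter]
      refine ⟨Finset.mem_univ _, ?_⟩
      intro u v huv
      exact hc1 u v huv.ne (h4 u v huv) (hc u v huv)
    have hsub : E c1 ⊆ E c := by
      intro q hq
      simp only [hE] at hq ⊢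
      rw [Finset.mem_filter] at hq ⊢
      refine ⟨Finset.mem_univ _, hq.2.1, ?_⟩
      by_contra hne
      exact hc1 q.1 q.2 hq.2.1.1 hq.2.1.2 hne hq.2.2
    have heq : E c1 = E c := Finset.eq_of_subset_of_card_le hsub (hcmin c1 hc1P)
    have hmem : (a, b) ∈ E c := by
      simp only [hE]
      rw [Finset.mem_filter]
      exact ⟨Finset.mem_univ _, hab, hcab⟩
    rw [← heq] at hmem
    simp only [hE] at hmem
    rw [Finset.mem_filter] at hmem
    exact hmem.2.2
  have hsur : Function.Surjective c := by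
    by_contra hns
    unfold Function.Surjective at hns
    push Not at hns
    obtain ⟨j, hj⟩ := hns
    let C : G.Coloring {x : Fin m // x ≠ j} :=
      SimpleGraph.Coloring.mk (fun v => ⟨c v, hj v⟩) (by
        intro u v huv h
        exact hc u v huv (congrArg Subtype.val h))
    have hC := C.colorable
    have hcard : Fintype.card {x : Fin m // x ≠ j} < m := by
      have h6 : Fintype.card {x : Fin m // x ≠ j} < Fintype.card (Fin m) :=
        Fintype.card_subtype_lt (p := fun x => x ≠ j) (x := j) (by simp)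
      rwa [Fintype.card_fin] at h6
    exact Nat.find_min hex hcard hC
  have hmpos : 0 < m := by
    have := (c hV.some).2
    omega
  -- the choice of the first interval
  have hI0 : F.Nonempty → ∃ I ∈ F, ∀ u v, S u v → c u = c v → ∃ w, c w = c u ∧ p w ∈ itv I := by
    intro hF
    by_cases hmt : ∃ u v, S u v ∧ c u = c v
    · set Q : Finset V := Finset.univ.filter fun u => ∃ v, S u v ∧ c u = c v with hQ
      have hQne : Q.Nonempty := by
        obtain ⟨u, v, h⟩ := hmt
        exact ⟨u, Finset.mem_filter.2 ⟨Finset.mem_univ _, v, h⟩⟩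
      obtain ⟨x, hxQ, hxmin⟩ := Finset.exists_min_image Q
        (fun x => (Finset.univ.filter fun v => c v = c x).card) hQne
      obtain ⟨y, ⟨hxy, I, hI, hxI, hyI⟩, hcxy⟩ := (Finset.mem_filter.1 hxQ).2
      have hends : ∃ a b, p a = I.1 ∧ p b = I.1 + (I.2 : AddCircle (1 : ℝ)) ∧ c a = c x ∧
          c b = c x ∧ S a b := by
        rcases h5 x y hxy I hI hxI hyI with h | h
        · exact absurd hcxy (hc x y h)
        · unfold ends at h
          rw [Set.pair_eq_pair_iff] at h
          rcases h with h | h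
          · exact ⟨x, y, h.1, h.2, rfl, hcxy.symm, hxy, I, hI, hxI, hyI⟩
          · exact ⟨y, x, h.2, h.1, hcxy.symm, rfl, hxy.symm, I, hI, hyI, hxI⟩
      obtain ⟨a, b, ha, hb, hca, hcb, hSab⟩ := hends
      refine ⟨I, hI, ?_⟩
      intro u v huv hcuv
      by_contra hcon
      push Not at hcon
      have h6 := mdl_tight p F h1 h2 h3 h5 hc hI ha hb (hca.trans hcb.symm) (γ := c u)
        (fun w hw => hcon w hw) (fun c1 hc1 => hR c1 hc1 a b hSab (hca.trans hcb.symm))
      have h7 := hxmin u (Finset.mem_filter.2 ⟨Finset.mem_univ _, v, huv, hcuv⟩)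
      rw [hca] at h6
      omega
    · obtain ⟨I, hI⟩ := hF
      refine ⟨I, hI, ?_⟩
      intro u v huv hcuv
      exact absurd ⟨u, v, huv, hcuv⟩ hmt
  rcases F.eq_empty_or_nonempty with hF | hF
  · have hne : ∀ v, (L v).Nonempty := by
      intro v
      rw [← Finset.card_pos]
      exact lt_of_lt_of_le hmpos (hmk.trans (hL v))
    choose f hf using hne
    refine ⟨f, hf, ?_⟩
    intro u v huv
    obtain ⟨I, hI, _⟩ := h4 u v huv
    rw [hF] at hI
    exact absurd hI (Set.notMem_empty _)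
  · obtain ⟨I, hI, hIc⟩ := hI0 hF
    obtain ⟨ord, ho⟩ := Mdl.exists_order (mdl p F h1 h2 h3 I.1) c
    have h0 : (mdl p F h1 h2 h3 I.1).X ⟨I, hI⟩ = 0 := by
      show co (I.1 - I.1) = 0
      apply co_eq le_rfl one_pos
      rw [sub_self]
      rfl
    obtain ⟨f, hf1, hf2⟩ := Mdl.choosable (M := mdl p F h1 h2 h3 I.1) ⟨I, hI⟩ h0 ho
      (mdl_good p F h1 h2 h3 h5 hc I.1)
      (by
        intro u v huv hcuv
        rw [mdl_Sd] at huv
        obtain ⟨w, hw1, hw2⟩ := hIc u v huv hcuv
        refine ⟨w, hw1, ?_⟩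
        rw [← Mdl.mem_i0 _ h0, mdl_mem]
        exact hw2)
      hmpos hsur L (fun v => hmk.trans (hL v))
    refine ⟨f, hf1, ?_⟩
    intro u v huv
    exact hf2 u v ((mdl_Sd p F h1 h2 h3 I.1 u v).2 ⟨huv.ne, h4 u v huv⟩) (hc u v huv)

end Pool.Agent.Results.MP_fb43a4_co.FuzzyCircularInterval
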